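import Pool.Agent.H72.G4.Ord
import Mathlib.Tactic

/-!
# Three orders from an ordering with three types of vertices

helper55's criterion `(***)`: an ordering (rank `r`) of the vertices of a digraph without digons
and types `t : V → Fin 3` such that for every `x` the earlier in-neighbours and the earlier
out-neighbours of `x` have disjoint sets of types, and two earlier neighbours of different types
on the same side of `x` have types one of which is the type of `x`. Then there are three strict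
total orders such that every arc is backward in exactly one of them. No planarity is needed.
-/

set_option autoImplicit false

namespace Pool.Agent.H72.G3

open Pool.Agent.H72.G4 Relation

variable {V : Type*}

/-- helper55's condition `(***)` -/
structure Star (D : V → V → Prop) (r : V → ℕ) (t : V → Fin 3) : Prop where
  one : ∀ x y z, r y < r x → r z < r x → D y x → D x z → t y ≠ t z
  twoI : ∀ x y z, r y < r x → r z < r x → D y x → D z x → t y ≠ t z → t x = t y ∨ t x = t z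
  twoO : ∀ x y z, r y < r x → r z < r x → D x y → D x z → t y ≠ t z → t x = t y ∨ t x = t z

/-- `x` goes to the top of the order `t x + 1` and to the bottom of the order `t x + 2` -/
def Up (D : V → V → Prop) (r : V → ℕ) (t : V → Fin 3) (x : V) : Prop :=
  (∃ y, r y < r x ∧ t y = t x + 1 ∧ D y x) ∨ ∃ y, r y < r x ∧ t y = t x + 2 ∧ D x y

/-- `x` is below `y` in the order `c`, for an edge with earlier end `x` or `y` -/
def Bel (D : V → V → Prop) (r : V → ℕ) (t : V → Fin 3) (c : Fin 3) (x y : V) : Prop :=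
  (r x < r y ∧ (D x y ∨ D y x) ∧
    ((t x = c ∧ D x y) ∨ (t x + 1 = c ∧ ¬ Up D r t x) ∨ (t x + 2 = c ∧ Up D r t x))) ∨
  (r y < r x ∧ (D x y ∨ D y x) ∧
    ((t y = c ∧ D x y) ∨ (t y + 1 = c ∧ Up D r t y) ∨ (t y + 2 = c ∧ ¬ Up D r t y)))

variable {D : V → V → Prop} {r : V → ℕ} {t : V → Fin 3}

theorem fin3_cases (a c : Fin 3) : a = c ∨ a + 1 = c ∨ a + 2 = c := by
  revert a c; decide

theorem fin3_ne1 (a : Fin 3) : a ≠ a + 1 := by revert a; decide

theorem fin3_ne2 (a : Fin 3) : a ≠ a + 2 := by revert a; decide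

theorem fin3_ne12 (a : Fin 3) : a + 1 ≠ a + 2 := by revert a; decide

/-- labels -/
def HiL (D : V → V → Prop) (r : V → ℕ) (t : V → Fin 3) (c : Fin 3) (n : ℕ) (x : V) : Prop :=
  ∃ y, r y < n ∧ t y = c ∧ D y x

def LoL (D : V → V → Prop) (r : V → ℕ) (t : V → Fin 3) (c : Fin 3) (n : ℕ) (x : V) : Prop :=
  ∃ y, r y < n ∧ t y = c ∧ D x y

theorem up_of_hi {x : V} (hx : HiL D r t (t x + 1) (r x) x) : Up D r t x := by
  obtain ⟨y, h1, h2, h3⟩ := hx
  exact Or.inl ⟨y, h1, h2, h3⟩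

theorem up_of_lo {x : V} (hx : LoL D r t (t x + 2) (r x) x) : Up D r t x := by
  obtain ⟨y, h1, h2, h3⟩ := hx
  exact Or.inr ⟨y, h1, h2, h3⟩

theorem not_up_of_lo (h : Star D r t) {x : V} (hx : LoL D r t (t x + 1) (r x) x) :
    ¬ Up D r t x := by
  obtain ⟨y, h1, h2, h3⟩ := hx
  rintro (⟨z, k1, k2, k3⟩ | ⟨z, k1, k2, k3⟩)
  · exact h.one x z y k1 h1 k3 h3 (k2.trans h2.symm)
  · rcases h.twoO x y z h1 k1 h3 k3 (by rw [h2, k2]; exact fin3_ne12 _) with e | e
    · exact fin3_ne1 _ (e.trans h2)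
    · exact fin3_ne2 _ (e.trans k2)

theorem not_up_of_hi (h : Star D r t) {x : V} (hx : HiL D r t (t x + 2) (r x) x) :
    ¬ Up D r t x := by
  obtain ⟨y, h1, h2, h3⟩ := hx
  rintro (⟨z, k1, k2, k3⟩ | ⟨z, k1, k2, k3⟩)
  · rcases h.twoI x z y k1 h1 k3 h3 (by rw [h2, k2]; exact fin3_ne12 _) with e | e
    · exact fin3_ne1 _ (e.trans k2)
    · exact fin3_ne2 _ (e.trans h2)
  · exact h.one x y z h1 k1 h3 k3 (h2.trans k2.symm)

/-- an edge from an earlier vertex `x` -/
theorem bel_first (h : Star D r t) {c : Fin 3} {x y : V} (hb : Bel D r t c x y) (hr : r x < r y) :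
    (t x = c ∧ D x y) ∨ (t x ≠ c ∧ ¬ HiL D r t c (r x) x) := by
  rcases hb with ⟨_, _, h1⟩ | ⟨h0, _⟩
  · rcases h1 with h1 | ⟨h1, h2⟩ | ⟨h1, h2⟩
    · exact Or.inl h1
    · refine Or.inr ⟨fun e => fin3_ne1 _ (e.trans h1.symm), fun k => h2 ?_⟩
      rw [← h1] at k
      exact up_of_hi k
    · refine Or.inr ⟨fun e => fin3_ne2 _ (e.trans h1.symm), fun k => ?_⟩
      rw [← h1] at k
      exact not_up_of_hi h k h2
  · omega

theorem bel_second (h : Star D r t) {c : Fin 3} {x y : V} (hb : Bel D r t c y x)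
    (hr : r x < r y) :
    (t x = c ∧ D y x) ∨ (t x ≠ c ∧ ¬ LoL D r t c (r x) x) := by
  rcases hb with ⟨h0, _⟩ | ⟨_, _, h1⟩
  · omega
  · rcases h1 with h1 | ⟨h1, h2⟩ | ⟨h1, h2⟩
    · exact Or.inl h1
    · refine Or.inr ⟨fun e => fin3_ne1 _ (e.trans h1.symm), fun k => ?_⟩
      rw [← h1] at k
      exact not_up_of_lo h k h2
    · refine Or.inr ⟨fun e => fin3_ne2 _ (e.trans h1.symm), fun k => h2 ?_⟩
      rw [← h1] at k
      exact up_of_lo k

/-- not both below and above later vertices, unless `t x = c` -/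
theorem bel_both {c : Fin 3} {x y z : V} (hb : Bel D r t c x y) (hr : r x < r y)
    (hb' : Bel D r t c z x) (hr' : r x < r z) : t x = c ∧ D x y ∧ D z x := by
  rcases hb with ⟨_, _, h1⟩ | ⟨h0, _⟩
  · rcases hb' with ⟨h0, _⟩ | ⟨_, _, k1⟩
    · omega
    · rcases h1 with ⟨h1, h2⟩ | ⟨h1, h2⟩ | ⟨h1, h2⟩ <;>
        rcases k1 with ⟨k1, k2⟩ | ⟨k1, k2⟩ | ⟨k1, k2⟩
      · exact ⟨h1, h2, k2⟩
      · exact absurd (h1.trans k1.symm) (fin3_ne1 _)
      · exact absurd (h1.trans k1.symm) (fin3_ne2 _)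
      · exact absurd (k1.trans h1.symm) (fin3_ne1 _)
      · exact absurd k2 h2
      · exact absurd (h1.trans k1.symm) (fin3_ne12 _)
      · exact absurd (k1.trans h1.symm) (fin3_ne2 _)
      · exact absurd (k1.trans h1.symm) (fin3_ne12 _)
      · exact absurd h2 k2
  · omega

/-- the relation among the vertices of rank at least `n` -/
def Rn (D : V → V → Prop) (r : V → ℕ) (t : V → Fin 3) (c : Fin 3) (n : ℕ) (x y : V) : Prop :=
  Bel D r t c x y ∧ n ≤ r x ∧ n ≤ r y

theorem bel_ne {c : Fin 3} {x y : V} (hb : Bel D r t c x y) : r x ≠ r y := by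
  rcases hb with ⟨h, _⟩ | ⟨h, _⟩ <;> omega

/-- decomposition of a walk at the vertex of rank `n` -/
theorem decomp (hr : Function.Injective r) {c : Fin 3} {n : ℕ} {q p : V}
    (h : ReflTransGen (Rn D r t c n) q p) (hq : n ≤ r q) :
    (n + 1 ≤ r q ∧ n + 1 ≤ r p ∧ ReflTransGen (Rn D r t c (n + 1)) q p) ∨
    ∃ x, r x = n ∧
      (q = x ∨ ∃ a, n + 1 ≤ r q ∧ n + 1 ≤ r a ∧ ReflTransGen (Rn D r t c (n + 1)) q a ∧
        Bel D r t c a x) ∧
      (p = x ∨ ∃ b, n + 1 ≤ r b ∧ n + 1 ≤ r p ∧ Bel D r t c x b ∧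
        ReflTransGen (Rn D r t c (n + 1)) b p) := by
  induction h with
  | refl =>
    rcases Nat.eq_or_lt_of_le hq with e | e
    · exact Or.inr ⟨q, e.symm, Or.inl rfl, Or.inl rfl⟩
    · exact Or.inl ⟨e, e, ReflTransGen.refl⟩
  | @tail p' p _ hs ih =>
    obtain ⟨hb, h1, h2⟩ := hs
    rcases Nat.eq_or_lt_of_le h2 with e | e
    · -- `p` is the vertex of rank `n`
      rcases ih with ⟨k1, k2, k3⟩ | ⟨x, hx, k1, _⟩
      · exact Or.inr ⟨p, e.symm, Or.inr ⟨p', k1, k2, k3, hb⟩, Or.inl rfl⟩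
      · have : p = x := hr (e.symm.trans hx.symm)
        subst this
        exact Or.inr ⟨p, hx, k1, Or.inl rfl⟩
    · rcases ih with ⟨k1, k2, k3⟩ | ⟨x, hx, k1, k2⟩
      · exact Or.inl ⟨k1, e, k3.tail ⟨hb, k2, e⟩⟩
      · refine Or.inr ⟨x, hx, k1, Or.inr ?_⟩
        rcases k2 with k2 | ⟨b, k2, k3, k4, k5⟩
        · subst k2
          exact ⟨p, e, e, hb, ReflTransGen.refl⟩
        · exact ⟨b, k2, e, k4, k5.tail ⟨hb, k3, e⟩⟩

theorem hi_mono {c : Fin 3} {n m : ℕ} (h : n ≤ m) {x : V} (hx : HiL D r t c n x) :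
    HiL D r t c m x := by
  obtain ⟨y, h1, h2, h3⟩ := hx
  exact ⟨y, lt_of_lt_of_le h1 h, h2, h3⟩

theorem lo_mono {c : Fin 3} {n m : ℕ} (h : n ≤ m) {x : V} (hx : LoL D r t c n x) :
    LoL D r t c m x := by
  obtain ⟨y, h1, h2, h3⟩ := hx
  exact ⟨y, lt_of_lt_of_le h1 h, h2, h3⟩

/-- no upward walk from an `H` vertex to an `L` vertex -/
theorem no_walk (hr : Function.Injective r) (h : Star D r t) (c : Fin 3) (N : ℕ)
    (hN : ∀ x, r x < N) : ∀ k n : ℕ, N ≤ n + k → ∀ q p : V, n ≤ r q → n ≤ r p →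
      ReflTransGen (Rn D r t c n) q p → HiL D r t c n q → LoL D r t c n p → False := by
  intro k
  induction k with
  | zero =>
    intro n hn q p hq _ _ _ _
    have := hN q
    omega
  | succ k ih =>
    intro n hn q p hq hp hw hH hL
    rcases decomp hr hw hq with ⟨k1, k2, k3⟩ | ⟨x, hx, k1, k2⟩
    · exact ih (n + 1) (by omega) q p k1 k2 k3 (hi_mono (by omega) hH) (lo_mono (by omega) hL)
    · have hHx : q = x → HiL D r t c (r x) x := by
        rintro rfl; rw [hx]; exact hH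
      have hLx : p = x → LoL D r t c (r x) x := by
        rintro rfl; rw [hx]; exact hL
      by_cases hc : t x = c
      · rcases k1 with k1 | ⟨a, a1, a2, a3, a4⟩
        · rcases k2 with k2 | ⟨b, b1, b2, b3, b4⟩
          · obtain ⟨y, y1, y2, y3⟩ := hHx k1
            obtain ⟨z, z1, z2, z3⟩ := hLx k2
            exact h.one x y z y1 z1 y3 z3 (y2.trans z2.symm)
          · rcases bel_first h b3 (by omega) with ⟨_, e2⟩ | ⟨e1, _⟩
            · exact ih (n + 1) (by omega) b p b1 b2 b4 ⟨x, by omega, hc, e2⟩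
                (lo_mono (by omega) hL)
            · exact e1 hc
        · rcases bel_second h a4 (by omega) with ⟨_, e2⟩ | ⟨e1, _⟩
          · exact ih (n + 1) (by omega) q a a1 a2 a3 (hi_mono (by omega) hH)
              ⟨x, by omega, hc, e2⟩
          · exact e1 hc
      · rcases k1 with k1 | ⟨a, a1, a2, a3, a4⟩
        · rcases k2 with k2 | ⟨b, b1, b2, b3, b4⟩
          · obtain ⟨y, y1, y2, y3⟩ := hHx k1
            obtain ⟨z, z1, z2, z3⟩ := hLx k2
            exact h.one x y z y1 z1 y3 z3 (y2.trans z2.symm)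
          · rcases bel_first h b3 (by omega) with ⟨e1, _⟩ | ⟨_, e2⟩
            · exact hc e1
            · exact e2 (hHx k1)
        · rcases k2 with k2 | ⟨b, b1, b2, b3, b4⟩
          · rcases bel_second h a4 (by omega) with ⟨e1, _⟩ | ⟨_, e2⟩
            · exact hc e1
            · exact e2 (hLx k2)
          · exact hc (bel_both b3 (by omega) a4 (by omega)).1

theorem no_cycle (hr : Function.Injective r) (h : Star D r t) (c : Fin 3) (N : ℕ)
    (hN : ∀ x, r x < N) : ∀ k n : ℕ, N ≤ n + k → ∀ z y : V, n ≤ r z → Rn D r t c n z y →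
      ReflTransGen (Rn D r t c n) y z → False := by
  intro k
  induction k with
  | zero =>
    intro n hn z y hz _ _
    have := hN z
    omega
  | succ k ih =>
    intro n hn z y hz hzy hw
    -- a vertex of rank `n` on a closed walk
    have key : ∀ x a b : V, r x = n → Bel D r t c x b → Bel D r t c a x → n + 1 ≤ r b →
        n + 1 ≤ r a → ReflTransGen (Rn D r t c (n + 1)) b a → False := by
      intro x a b hx h1 h2 h3 h4 h5
      obtain ⟨e1, e2, e3⟩ := bel_both h1 (by omega) h2 (by omega)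
      exact no_walk hr h c N hN k (n + 1) (by omega) b a h3 h4 h5 ⟨x, by omega, e1, e2⟩
        ⟨x, by omega, e1, e3⟩
    rcases decomp hr hw hzy.2.2 with ⟨k1, k2, k3⟩ | ⟨x, hx, k1, k2⟩
    · exact ih (n + 1) (by omega) z y k2 ⟨hzy.1, k2, k1⟩ k3
    · rcases k1 with k1 | ⟨a, a1, a2, a3, a4⟩
      · rcases k2 with k2 | ⟨b, b1, b2, b3, b4⟩
        · exact bel_ne hzy.1 (by rw [k1, k2])
        · rw [k1] at hzy
          exact key x z b hx b3 hzy.1 b1 b2 b4
      · rcases k2 with k2 | ⟨b, b1, b2, b3, b4⟩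
        · rw [k2] at hzy
          exact key x a y hx hzy.1 a4 a1 a2 a3
        · exact key x a b hx b3 a4 b1 a2 (b4.trans (ReflTransGen.head ⟨hzy.1, b2, a1⟩ a3))

/-- **Three orders from `(***)`.** -/
theorem star_orders [Finite V] (hD : ∀ x y, D x y → ¬ D y x) (hr : Function.Injective r)
    (h : Star D r t) :
    ∃ O : Fin 3 → V → V → Prop, (∀ c, STO (O c)) ∧ ∀ x y, D x y → ∃! c, O c y x := by
  classical
  obtain ⟨N, hN⟩ : ∃ N, ∀ x, r x < N := by
    obtain ⟨N, hN⟩ := (Set.finite_range r).bddAbove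
    exact ⟨N + 1, fun x => Nat.lt_succ_of_le (hN ⟨x, rfl⟩)⟩
  have hirr : ∀ c x, ¬ TransGen (Bel D r t c) x x := by
    intro c x hx
    obtain ⟨y, h1, h2⟩ := TransGen.head'_iff.1 hx
    refine no_cycle hr h c N hN N 0 (by omega) x y (Nat.zero_le _) ⟨h1, by omega, by omega⟩ ?_
    have hm : ∀ a b, Bel D r t c a b → Rn D r t c 0 (id a) (id b) :=
      fun a b hab => ⟨hab, Nat.zero_le _, Nat.zero_le _⟩
    exact ReflTransGen.lift id hm _ _ h2
  choose O hO hB using fun c => exists_sto (TransGen (Bel D r t c)) (hirr c)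
    (fun x y z h1 h2 => h1.trans h2)
  refine ⟨O, hO, fun x y hxy => ?_⟩
  have hne : x ≠ y := by rintro rfl; exact hD _ _ hxy hxy
  have hrne : r x ≠ r y := fun e => hne (hr e)
  have hb : ∀ c a b, Bel D r t c a b → O c a b := fun c a b hab => hB c a b (TransGen.single hab)
  rcases lt_or_gt_of_ne hrne with hlt | hlt
  · -- `x` is earlier
    by_cases hu : Up D r t x
    · refine ⟨t x + 1, hb _ _ _ (Or.inr ⟨hlt, Or.inr hxy, Or.inr (Or.inl ⟨rfl, hu⟩)⟩), ?_⟩
      intro c hc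
      rcases fin3_cases (t x) c with e | e | e
      · exact absurd hc ((hO c).asymm (hb _ _ _ (Or.inl ⟨hlt, Or.inl hxy, Or.inl ⟨e, hxy⟩⟩)))
      · exact e.symm
      · exact absurd hc ((hO c).asymm
          (hb _ _ _ (Or.inl ⟨hlt, Or.inl hxy, Or.inr (Or.inr ⟨e, hu⟩)⟩)))
    · refine ⟨t x + 2, hb _ _ _ (Or.inr ⟨hlt, Or.inr hxy, Or.inr (Or.inr ⟨rfl, hu⟩)⟩), ?_⟩
      intro c hc
      rcases fin3_cases (t x) c with e | e | e
      · exact absurd hc ((hO c).asymm (hb _ _ _ (Or.inl ⟨hlt, Or.inl hxy, Or.inl ⟨e, hxy⟩⟩)))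
      · exact absurd hc ((hO c).asymm
          (hb _ _ _ (Or.inl ⟨hlt, Or.inl hxy, Or.inr (Or.inl ⟨e, hu⟩)⟩)))
      · exact e.symm
  · -- `y` is earlier
    by_cases hu : Up D r t y
    · refine ⟨t y + 2, hb _ _ _ (Or.inl ⟨hlt, Or.inr hxy, Or.inr (Or.inr ⟨rfl, hu⟩)⟩), ?_⟩
      intro c hc
      rcases fin3_cases (t y) c with e | e | e
      · exact absurd hc ((hO c).asymm (hb _ _ _ (Or.inr ⟨hlt, Or.inl hxy, Or.inl ⟨e, hxy⟩⟩)))
      · exact absurd hc ((hO c).asymm
          (hb _ _ _ (Or.inr ⟨hlt, Or.inl hxy, Or.inr (Or.inl ⟨e, hu⟩)⟩)))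
      · exact e.symm
    · refine ⟨t y + 1, hb _ _ _ (Or.inl ⟨hlt, Or.inr hxy, Or.inr (Or.inl ⟨rfl, hu⟩)⟩), ?_⟩
      intro c hc
      rcases fin3_cases (t y) c with e | e | e
      · exact absurd hc ((hO c).asymm (hb _ _ _ (Or.inr ⟨hlt, Or.inl hxy, Or.inl ⟨e, hxy⟩⟩)))
      · exact e.symm
      · exact absurd hc ((hO c).asymm
          (hb _ _ _ (Or.inr ⟨hlt, Or.inl hxy, Or.inr (Or.inr ⟨e, hu⟩)⟩)))

end Pool.Agent.H72.G3
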